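import Pool.Agent.H610RF.Final

set_option autoImplicit false

/-!
# Residual finiteness growth of nilpotent groups depends only on the complex Mal'cev completion

Positive answer to Q1 of MP_67ef3c_al.
-/

namespace Pool.Agent.Results.MP_67ef3c_al.RFComplex

open Pool.Agent.H610RF

universe u v

/-- Let `G₁`, `G₂` be finitely generated torsion-free nilpotent groups whose complex Mal'cev
completions are isomorphic. Then their residual finiteness growth functions (with respect to any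
finite generating sets) are equivalent: each is dominated by the other. -/
theorem result (G₁ : Type u) (G₂ : Type v) [Group G₁] [Group G₂]
    [Group.IsNilpotent G₁] [Group.IsNilpotent G₂]
    (htf₁ : ∀ g : G₁, g ≠ 1 → ∀ n : ℕ, 1 ≤ n → g ^ n ≠ 1)
    (htf₂ : ∀ g : G₂, g ≠ 1 → ∀ n : ℕ, 1 ≤ n → g ^ n ≠ 1)
    (S₁ : Set G₁) (S₂ : Set G₂) (hf₁ : S₁.Finite) (hf₂ : S₂.Finite)
    (hS₁ : Subgroup.closure S₁ = ⊤) (hS₂ : Subgroup.closure S₂ = ⊤)
    (h : SameComplexCompletion G₁ G₂) :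
    Dominated (RF S₁) (RF S₂) ∧ Dominated (RF S₂) (RF S₁) := by
  obtain ⟨n₁, n₂, ρ₁, ρ₂, h₁, h₂, ⟨f⟩⟩ := h
  exact ⟨one_side htf₂ S₁ S₂ hf₁ hf₂ hS₁ hS₂ h₁ h₂ f,
    one_side htf₁ S₂ S₁ hf₂ hf₁ hS₂ hS₁ h₂ h₁ f.symm⟩

end Pool.Agent.Results.MP_67ef3c_al.RFComplex
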